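import Mathlib
import Pool.Agent.W560.HP.Stm
import Pool.Agent.W560.Ueno.Fields

/-! HP-BRK: the generic broken system. -/

set_option autoImplicit false

namespace Pool.Agent.W683.HP

open Finset Polynomial
open W560.Sep (dt dt_map dt_col dt_congr eq_zero_of_dt)
open W560.HP

section basics

variable {A B : Type*} [CommRing A] [CommRing B]

theorem g_map (φ : A →+* B) (m : ℕ) (r : ℕ → A) (j : ℕ) :
    (g m r j).map φ = g m (fun i => φ (r i)) j := by
  simp [g]

theorem h_map (φ : A →+* B) (m : ℕ) (r τ : ℕ → A) (j : ℕ) :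
    (h m r τ j).map φ = h m (fun i => φ (r i)) (fun i => φ (τ i)) j := by
  unfold h
  split_ifs <;> simp

theorem g_coeff (φ : A →+* B) (m : ℕ) (r : ℕ → A) (i l : ℕ) :
    φ ((g m r i).coeff l) = (g m (fun j => φ (r j)) i).coeff l := by
  rw [← g_map, coeff_map]

theorem h_coeff (φ : A →+* B) (m : ℕ) (r τ : ℕ → A) (i l : ℕ) :
    φ ((h m r τ i).coeff l) = (h m (fun j => φ (r j)) (fun j => φ (τ j)) i).coeff l := by
  rw [← h_map, coeff_map]

theorem h_smul (m : ℕ) (r τ : ℕ → A) (c : A) (i : ℕ) :
    h m r (fun j => c * τ j) i = C c * h m r τ i := by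
  unfold h
  split_ifs
  all_goals
    simp only [map_mul]
    ring

theorem Lev_map {m q : ℕ} {σ : ℕ → ℕ} {r τ : ℕ → A} (H : Lev m q σ r τ) (φ : A →+* B)
    (hφ : Function.Injective φ) : Lev m q σ (fun i => φ (r i)) (fun i => φ (τ i)) where
  r0 := by
    intro j hj
    rw [H.r0 j hj, map_zero]
  t0 := by
    intro j hj
    rw [H.t0 j hj, map_zero]
  p1 := by
    intro l hl
    have := congrArg φ (H.p1 l hl)
    rw [map_sum, map_zero] at this
    rw [← this]
    refine Finset.sum_congr rfl fun i _ => ?_
    rw [map_mul, g_coeff]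
  p2 := by
    intro e
    apply H.p2
    apply hφ
    rw [dt_map, map_zero, ← e]
    simp only [g_coeff]
  p3 := by
    intro e
    apply H.p3
    apply hφ
    rw [dt_map, map_zero, ← e]
    simp only [h_coeff]
  p4 := by
    intro i hi e
    exact H.p4 i hi (hφ (by rw [e, map_zero]))

end basics

theorem Lev_smul {K : Type*} [Field K] {m q : ℕ} {σ : ℕ → ℕ} {r τ : ℕ → K}
    (H : Lev m q σ r τ) (c : K) (hc : c ≠ 0) : Lev m q σ r (fun j => c * τ j) where
  r0 := H.r0
  t0 := by
    intro j hj
    rw [H.t0 j hj, mul_zero]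
  p1 := by
    intro l hl
    have : ∑ i ∈ range (q + 1), (g m r (σ i)).coeff l * (c * τ (σ i))
        = c * ∑ i ∈ range (q + 1), (g m r (σ i)).coeff l * τ (σ i) := by
      rw [Finset.mul_sum]
      exact Finset.sum_congr rfl fun i _ => by ring
    rw [this, H.p1 l hl, mul_zero]
  p2 := H.p2
  p3 := by
    have h1 : dt (q + 1) (fun l i => (h m r (fun j => c * τ j) (σ i)).coeff l)
        = (∏ _i ∈ range (q + 1), c) * dt (q + 1) (fun l i => (h m r τ (σ i)).coeff l) := by
      rw [← dt_col]
      apply dt_congr
      intro l _ i _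
      rw [h_smul, coeff_C_mul]
    rw [h1]
    apply mul_ne_zero _ H.p3
    rw [Finset.prod_const]
    exact pow_ne_zero _ hc
  p4 := by
    intro i hi
    exact mul_ne_zero hc (H.p4 i hi)

/-- the kernel of the contact system is spanned by the weights -/
theorem Lev_prop {K : Type*} [Field K] {m q : ℕ} {σ : ℕ → ℕ} {r τ : ℕ → K}
    (H : Lev m q σ r τ) (t : ℕ → K)
    (ht : ∀ l < q, ∑ i ∈ range (q + 1), (g m r (σ i)).coeff l * t (σ i) = 0) :
    ∃ lam : K, ∀ i ≤ q, t (σ i) = lam * τ (σ i) := by
  set T : K := ∑ i ∈ range (q + 1), (g m r (σ i)).coeff q * τ (σ i) with hT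
  have hT0 : T ≠ 0 := by
    intro e
    have := eq_zero_of_dt (q + 1) (fun l i => (g m r (σ i)).coeff l) H.p2 (fun i => τ (σ i)) (by
      intro i hi
      rcases Nat.lt_or_ge i q with h1 | h1
      · exact H.p1 i h1
      · have : i = q := by omega
        subst this
        exact e) 0 (by omega)
    exact H.p4 0 (by omega) this
  refine ⟨(∑ i ∈ range (q + 1), (g m r (σ i)).coeff q * t (σ i)) / T, fun i hi => ?_⟩
  set lam : K := (∑ i ∈ range (q + 1), (g m r (σ i)).coeff q * t (σ i)) / T with hlam
  have := eq_zero_of_dt (q + 1) (fun l i => (g m r (σ i)).coeff l) H.p2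
    (fun i => t (σ i) - lam * τ (σ i)) (by
      intro l hl
      have h1 : ∑ j ∈ range (q + 1), (g m r (σ j)).coeff l * (t (σ j) - lam * τ (σ j))
          = ∑ j ∈ range (q + 1), (g m r (σ j)).coeff l * t (σ j)
            - lam * ∑ j ∈ range (q + 1), (g m r (σ j)).coeff l * τ (σ j) := by
        rw [Finset.mul_sum, ← Finset.sum_sub_distrib]
        refine Finset.sum_congr rfl fun j _ => by ring
      rw [h1]
      rcases Nat.lt_or_ge l q with h2 | h2
      · rw [ht l h2, H.p1 l h2]; ring
      · have : l = q := by omega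
        subst this
        rw [← hT, hlam]
        field_simp
        ring) i (by omega)
  exact sub_eq_zero.mp this

/-! the function field -/

section fld

variable (k : Type) [Field k] (ι : Type)

/-- rational function field -/
abbrev EF := FractionRing (MvPolynomial ι k)

/-- the variables -/
noncomputable def tv (j : ι) : EF k ι :=
  algebraMap (MvPolynomial ι k) _ (MvPolynomial.X j)

theorem tv_basis : IsTranscendenceBasis k (tv k ι) := by
  have h := IsTranscendenceBasis.mvPolynomial ι k
  have : Algebra.IsAlgebraic (MvPolynomial ι k) (EF k ι) :=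
    IsLocalization.isAlgebraic _ (nonZeroDivisors (MvPolynomial ι k))
  exact h.algebraMap_comp (A := EF k ι)

theorem adjoin_tv : IntermediateField.adjoin k (Set.range (tv k ι)) = ⊤ := by
  rw [eq_top_iff]
  intro a _
  obtain ⟨p, q, hq, rfl⟩ := IsFractionRing.div_surjective
    (A := MvPolynomial ι k) a
  have hmem : ∀ p : MvPolynomial ι k, algebraMap _ (EF k ι) p
      ∈ IntermediateField.adjoin k (Set.range (tv k ι)) := by
    intro p
    induction p using MvPolynomial.induction_on with
    | C c =>
      have : algebraMap (MvPolynomial ι k) (EF k ι) (MvPolynomial.C c)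
          = algebraMap k (EF k ι) c := rfl
      rw [this]
      exact IntermediateField.algebraMap_mem _ c
    | add p q hp hq => rw [map_add]; exact add_mem hp hq
    | mul_X p i hp =>
      rw [map_mul]
      exact mul_mem hp (IntermediateField.subset_adjoin _ _ ⟨i, rfl⟩)
  exact div_mem (hmem p) (hmem q)

variable {k ι}

open scoped IntermediateField.algebraAdjoinAdjoin in
theorem indep_of_card [Finite ι] {κ : Type} [Finite κ] (hcard : Nat.card κ = Nat.card ι)
    (w : κ → EF k ι)
    (h1 : Algebra.IsAlgebraic (IntermediateField.adjoin k (Set.range w)) (EF k ι)) :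
    AlgebraicIndependent k w := by
  have h2 : Algebra.IsAlgebraic (Algebra.adjoin k (Set.range w)) (EF k ι) :=
    (IsFractionRing.comap_isAlgebraic_iff
      (K := IntermediateField.adjoin k (Set.range w))).mpr h1
  have h3 := Algebra.IsAlgebraic.isTranscendenceBasis_of_lift_le_trdeg_of_finite k w (by
    have h4 := (tv_basis k ι).lift_cardinalMk_eq_trdeg
    rw [← h4]
    have e1 : Cardinal.mk κ = Cardinal.mk ι := by
      rw [← Nat.cast_card, ← Nat.cast_card, hcard]
    rw [e1])
  exact h3.1

theorem adjoin_over' {k E : Type} [Field k] [Field E] [Algebra k E] (K0 : IntermediateField k E)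
    (S : Set E) (hS : IntermediateField.adjoin k S = ⊤) : IntermediateField.adjoin K0 S = ⊤ := by
  apply IntermediateField.restrictScalars_injective k
  rw [IntermediateField.restrictScalars_adjoin, IntermediateField.restrictScalars_top, eq_top_iff,
    ← hS]
  exact IntermediateField.adjoin.mono _ _ _ (Set.subset_union_right)

theorem D_eq_zero {K L : Type} [Field K] [Field L] [Algebra K L] (a : L)
    (h : ∀ D : Derivation K L L, D a = 0) : KaehlerDifferential.D K L a = 0 := by
  rw [← Module.forall_dual_apply_eq_zero_iff L]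
  intro φ
  have := h (φ.compDer (KaehlerDifferential.D K L))
  exact this

theorem alg_of_der {K L : Type} [Field K] [Field L] [Algebra K L] [CharZero K] (S : Set L)
    (hfin : S.Finite) (hS : IntermediateField.adjoin K S = ⊤)
    (h : ∀ D : Derivation K L L, ∀ a ∈ S, D a = 0) : Algebra.IsAlgebraic K L := by
  apply W560.Ueno.isAlgebraic_of_D K L hfin.toFinset (by rw [Set.Finite.coe_toFinset]; exact hS)
  intro a ha
  apply D_eq_zero
  intro D
  exact h D a (by simpa using ha)

end fld

/-! combinatorics of the present nodes -/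

theorem sig_image {m i : ℕ} (hi : i ≤ m + 1) (σ : ℕ → ℕ)
    (hinj : ∀ p ≤ m, ∀ q ≤ m, σ p = σ q → p = q) (hr : ∀ p ≤ m, σ p ≤ m + 1 ∧ σ p ≠ i) :
    (range (m + 1)).image σ = (range (m + 2)).erase i := by
  apply Finset.eq_of_subset_of_card_le
  · intro j hj
    obtain ⟨p, hp, rfl⟩ := Finset.mem_image.mp hj
    have hp' := Finset.mem_range.mp hp
    have := hr p (by omega)
    rw [Finset.mem_erase, Finset.mem_range]
    exact ⟨this.2, by omega⟩
  · rw [Finset.card_erase_of_mem (Finset.mem_range.mpr (by omega)), Finset.card_image_of_injOn,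
      Finset.card_range, Finset.card_range]
    · omega
    · intro p hp q hq hpq
      have hp' := Finset.mem_range.mp (Finset.mem_coe.mp hp)
      have hq' := Finset.mem_range.mp (Finset.mem_coe.mp hq)
      exact hinj p (by omega) q (by omega) hpq

theorem sig_sum {m i : ℕ} (hi : i ≤ m + 1) (σ : ℕ → ℕ)
    (hinj : ∀ p ≤ m, ∀ q ≤ m, σ p = σ q → p = q) (hr : ∀ p ≤ m, σ p ≤ m + 1 ∧ σ p ≠ i)
    {A : Type*} [AddCommMonoid A] (F : ℕ → A) (hF : F i = 0) :
    ∑ j ∈ range (m + 2), F j = ∑ p ∈ range (m + 1), F (σ p) := by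
  rw [← Finset.sum_erase (range (m + 2)) hF, ← sig_image hi σ hinj hr, Finset.sum_image]
  intro p hp q hq hpq
  have hp' := Finset.mem_range.mp (Finset.mem_coe.mp hp)
  have hq' := Finset.mem_range.mp (Finset.mem_coe.mp hq)
  exact hinj p (by omega) q (by omega) hpq

theorem sig_surj {m i : ℕ} (hi : i ≤ m + 1) (σ : ℕ → ℕ)
    (hinj : ∀ p ≤ m, ∀ q ≤ m, σ p = σ q → p = q) (hr : ∀ p ≤ m, σ p ≤ m + 1 ∧ σ p ≠ i)
    (j : ℕ) (hj : j ≤ m + 1) (hji : j ≠ i) : ∃ p ≤ m, σ p = j := by
  have : j ∈ (range (m + 1)).image σ := by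
    rw [sig_image hi σ hinj hr, Finset.mem_erase, Finset.mem_range]
    exact ⟨hji, by omega⟩
  obtain ⟨p, hp, hpj⟩ := Finset.mem_image.mp this
  have hp' := Finset.mem_range.mp hp
  exact ⟨p, by omega, hpj⟩

theorem sig_card {m i : ℕ} (hi : i ≤ m + 1) (σ : ℕ → ℕ)
    (hinj : ∀ p ≤ m, ∀ q ≤ m, σ p = σ q → p = q) (hr : ∀ p ≤ m, σ p ≤ m + 1 ∧ σ p ≠ i) :
    Nat.card (Option {j : Fin (m + 2) // (j : ℕ) ≠ i}) = Nat.card (Option (Fin (m + 1))) := by
  symm
  let f : Fin (m + 1) → {j : Fin (m + 2) // (j : ℕ) ≠ i} := fun p =>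
    ⟨⟨σ p, by have := hr p (by omega); omega⟩, (hr p (by omega)).2⟩
  have hf : Function.Bijective f := by
    constructor
    · intro p q hpq
      have h1 : σ p = σ q := congrArg (fun z : {j : Fin (m + 2) // (j : ℕ) ≠ i} => ((z : Fin (m + 2)) : ℕ)) hpq
      exact Fin.ext (hinj p (by omega) q (by omega) h1)
    · rintro ⟨j, hj⟩
      obtain ⟨p, hp, hpj⟩ := sig_surj hi σ hinj hr j (by omega) hj
      exact ⟨⟨p, by omega⟩, Subtype.ext (Fin.ext hpj)⟩
  exact Nat.card_congr (Equiv.optionCongr (Equiv.ofBijective f hf))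

theorem brk (hL : S_LEV) (hG : S_GEN) (hE : S_EUL) (hD : S_DIFF) : S_BRK := by
  intro k _ _ m i hm hi
  obtain ⟨K, iK, aK, σ, r0, τ0, hinj, hrange, H0⟩ := hL k m i hm hi
  obtain ⟨r1, t1, hX, H1⟩ := hG k m σ (by omega) hinj ⟨K, iK, aK, r0, τ0, H0⟩
  have hcz : CharZero (EF k (Option (Fin (m + 1)))) :=
    charZero_of_injective_algebraMap (algebraMap k (EF k (Option (Fin (m + 1))))).injective
  let e : MvPolynomial (Fin (m + 1)) k →ₐ[k] EF k (Option (Fin (m + 1))) :=
    MvPolynomial.aeval (fun p => tv k (Option (Fin (m + 1))) (some p))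
  have he : Function.Injective e :=
    ((tv_basis k (Option (Fin (m + 1)))).1.comp some (Option.some_injective _))
  have tv_ne : ∀ j, tv k (Option (Fin (m + 1))) j ≠ 0 := fun j =>
    (tv_basis k (Option (Fin (m + 1)))).1.ne_zero j
  set lam := tv k (Option (Fin (m + 1))) none with hlam
  have hlam0 : lam ≠ 0 := tv_ne none
  set r : ℕ → EF k (Option (Fin (m + 1))) := fun j => e (r1 j) with hrdef
  set τ : ℕ → EF k (Option (Fin (m + 1))) := fun j => e (t1 j) with hτdef
  set v : ℕ → EF k (Option (Fin (m + 1))) := fun j => lam * τ j with hvdef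
  have Hτ : Lev m m σ r τ := Lev_map H1 e.toRingHom he
  have H : Lev m m σ r v := Lev_smul Hτ lam hlam0
  have hrtv : ∀ p : Fin (m + 1), r (σ p) = tv k (Option (Fin (m + 1))) (some p) := by
    intro p
    rw [hrdef]
    change e (r1 (σ p)) = _
    rw [hX p]
    exact MvPolynomial.aeval_X _ _
  have hnot : ∀ p ≤ m, σ p ≠ i := fun p hp => (hrange p hp).2
  have ri : r i = 0 := H.r0 i hnot
  have vi : v i = 0 := H.t0 i hnot
  have hτne : ∀ b ≤ m + 1, b ≠ i → τ b ≠ 0 := by
    intro b hb hbi
    obtain ⟨p, hp, rfl⟩ := sig_surj hi σ hinj hrange b hb hbi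
    exact Hτ.p4 p hp
  have hvne : ∀ b ≤ m + 1, b ≠ i → v b ≠ 0 := fun b hb hbi => mul_ne_zero hlam0 (hτne b hb hbi)
  have hcard := sig_card hi σ hinj hrange
  refine ⟨EF k (Option (Fin (m + 1))), inferInstance, inferInstance, r, v, ri, vi, ?_, ?_, ?_, ?_, ?_⟩
  · intro j hj
    apply H.r0
    intro p hp
    have := (hrange p hp).1
    omega
  · intro l hl
    rw [sig_sum hi σ hinj hrange (fun j => (g m r j).coeff l * v j) (by simp only [vi, mul_zero])]
    exact H.p1 l hl
  · -- independence of the weights
    let w : Option {j : Fin (m + 2) // (j : ℕ) ≠ i} → EF k (Option (Fin (m + 1))) :=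
      fun o => o.elim (r (σ 0)) (fun j => v j)
    have hw : AlgebraicIndependent k w := by
      apply indep_of_card hcard
      set K0 := IntermediateField.adjoin k (Set.range w) with hK0
      have : CharZero K0 := charZero_of_injective_algebraMap (algebraMap k K0).injective
      apply alg_of_der (Set.range (tv k (Option (Fin (m + 1))))) (Set.finite_range _)
        (adjoin_over' K0 _ (adjoin_tv k _))
      intro D
      have hDw : ∀ o, D (w o) = 0 := fun o =>
        D.map_algebraMap ⟨w o, IntermediateField.subset_adjoin _ _ ⟨o, rfl⟩⟩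
      have hDv : ∀ p ≤ m, D (v (σ p)) = 0 := by
        intro p hp
        have h1 := hrange p hp
        exact hDw (some ⟨⟨σ p, by omega⟩, h1.2⟩)
      have hDr0 : D (r (σ 0)) = 0 := hDw none
      have h2 := hD k (EF k (Option (Fin (m + 1)))) m σ r v (D.restrictScalars k) (by omega) hinj H
        (fun p hp => hDv p hp)
      obtain ⟨κ, hκ⟩ := hE (EF k (Option (Fin (m + 1)))) m σ r v (by omega) hinj H (fun j => D (r j)) h2
      have h3 : r (σ 0) ≠ 0 := by
        have := hrtv ⟨0, by omega⟩
        rw [this]
        exact tv_ne _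
      have hκ0 : κ = 0 := by
        have h4 := hκ 0 (by omega)
        simp only [hDr0] at h4
        rcases mul_eq_zero.mp h4.symm with h5 | h5
        · exact h5
        · exact absurd h5 h3
      have hDtv : ∀ p : Fin (m + 1), D (tv k (Option (Fin (m + 1))) (some p)) = 0 := by
        intro p
        rw [← hrtv p]
        have := hκ p (by omega)
        rw [this, hκ0, zero_mul]
      have hDe : ∀ f : MvPolynomial (Fin (m + 1)) k, D (e f) = 0 := by
        intro f
        induction f using MvPolynomial.induction_on with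
        | C c =>
          have h5 : e (MvPolynomial.C c) = algebraMap K0 _ (algebraMap k K0 c) := by
            rw [← IsScalarTower.algebraMap_apply k K0]
            exact MvPolynomial.aeval_C _ _
          rw [h5]
          exact D.map_algebraMap _
        | add p q hp hq => rw [map_add, map_add, hp, hq, add_zero]
        | mul_X p j hp =>
          rw [map_mul, Derivation.leibniz, hp]
          have h5 : e (MvPolynomial.X j) = tv k (Option (Fin (m + 1))) (some j) :=
            MvPolynomial.aeval_X _ _
          rw [h5, hDtv j]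
          simp
      rintro _ ⟨o, rfl⟩
      cases o with
      | none =>
        have h5 := hDv 0 (by omega)
        have h6 : v (σ 0) = lam * τ (σ 0) := rfl
        have h7 : D (τ (σ 0)) = 0 := hDe _
        rw [h6, Derivation.leibniz, h7, smul_zero, zero_add, smul_eq_mul] at h5
        rcases mul_eq_zero.mp h5 with h8 | h8
        · exact absurd h8 (Hτ.p4 0 (by omega))
        · exact h8
      | some p => exact hDtv p
    exact hw.comp some (Option.some_injective _)
  · -- uniqueness
    intro b hb hbi t ht ti tb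
    obtain ⟨c, hc⟩ := Lev_prop H t (by
      intro l hl
      rw [← sig_sum hi σ hinj hrange (fun j => (g m r j).coeff l * t j)
        (by simp only [ti, mul_zero])]
      exact ht l hl)
    have hall : ∀ j ≤ m + 1, j ≠ i → t j = c * v j := by
      intro j hj hji
      obtain ⟨p, hp, rfl⟩ := sig_surj hi σ hinj hrange j hj hji
      exact hc p hp
    have hc0 : c = 0 := by
      have := hall b hb hbi
      rw [tb] at this
      rcases mul_eq_zero.mp this.symm with h5 | h5
      · exact h5
      · exact absurd h5 (hvne b hb hbi)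
    intro j hj
    by_cases hji : j = i
    · rw [hji]; exact ti
    · rw [hall j hj hji, hc0, zero_mul]
  · -- independence of the nodes and one weight
    intro b hb hbi
    let w : Option {j : Fin (m + 2) // (j : ℕ) ≠ i} → EF k (Option (Fin (m + 1))) :=
      fun o => o.elim (v b) (fun j => r j)
    change AlgebraicIndependent k w
    apply indep_of_card hcard
    set K0 := IntermediateField.adjoin k (Set.range w) with hK0
    have hw : ∀ o, w o ∈ K0 := fun o => IntermediateField.subset_adjoin _ _ ⟨o, rfl⟩
    have htv : ∀ p : Fin (m + 1), tv k (Option (Fin (m + 1))) (some p) ∈ K0 := by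
      intro p
      rw [← hrtv p]
      have h1 := hrange p (by omega)
      exact hw (some ⟨⟨σ p, by omega⟩, h1.2⟩)
    have hef : ∀ f : MvPolynomial (Fin (m + 1)) k, e f ∈ K0 := by
      intro f
      induction f using MvPolynomial.induction_on with
      | C c =>
        have h5 : e (MvPolynomial.C c) = algebraMap k _ c := MvPolynomial.aeval_C _ _
        rw [h5]
        exact IntermediateField.algebraMap_mem _ c
      | add p q hp hq => rw [map_add]; exact add_mem hp hq
      | mul_X p j hp =>
        rw [map_mul]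
        have h5 : e (MvPolynomial.X j) = tv k (Option (Fin (m + 1))) (some j) :=
          MvPolynomial.aeval_X _ _
        rw [h5]
        exact mul_mem hp (htv j)
    have hl : lam ∈ K0 := by
      have h1 : v b ∈ K0 := hw none
      have h2 : lam = v b / τ b := by
        rw [hvdef]
        change lam = lam * τ b / τ b
        rw [mul_div_assoc, div_self (hτne b hb hbi), mul_one]
      rw [h2]
      exact div_mem h1 (hef _)
    have htop : K0 = ⊤ := by
      rw [eq_top_iff, ← adjoin_tv k (Option (Fin (m + 1))), IntermediateField.adjoin_le_iff]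
      rintro _ ⟨o, rfl⟩
      cases o with
      | none => exact hl
      | some p => exact htv p
    refine ⟨fun x => ?_⟩
    have hx : x ∈ K0 := by rw [htop]; exact IntermediateField.mem_top
    exact isAlgebraic_algebraMap (⟨x, hx⟩ : K0)

end Pool.Agent.W683.HP
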